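import Mathlib

/-!
# Invariant triangulations and the exponent of the group

For every `k ≥ 1` there is an abelian group of exponent `4` acting (by coordinate permutations) on
a lattice polytope `P` such that every invariant triangulation of `P` with vertices in
`(1/N) ℤ^d` satisfies `2 ^ k ∣ N`.
-/

set_option autoImplicit false

namespace Pool.Agent.Results.MP_ee8878_co.NoInvariantTriangulation

open Finset

/-- An integer vector as a real vector. -/
def toReal {ι : Type} (u : ι → ℤ) : ι → ℝ := fun i => (u i : ℝ)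

/-- The affine automorphism `f` of `ℝ^ι` maps integer points to integer points. -/
def PreservesLattice {ι : Type} (f : (ι → ℝ) ≃ᵃ[ℝ] (ι → ℝ)) : Prop :=
  ∀ u : ι → ℤ, ∃ v : ι → ℤ, f (toReal u) = toReal v

/-- `P` is the convex hull of finitely many integer points and has full dimension. -/
def IsFullLatticePolytope {ι : Type} (P : Set (ι → ℝ)) : Prop :=
  (∃ S : Finset (ι → ℤ), P = convexHull ℝ (toReal '' (S : Set (ι → ℤ)))) ∧
    affineSpan ℝ P = ⊤

/-- `T` is a triangulation of `P` that is invariant under the action `ρ` and has all its vertices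
in `(1/N) ℤ^ι`. -/
structure IsInvariantTriangulation {G ι : Type} [Group G]
    (ρ : G →* ((ι → ℝ) ≃ᵃ[ℝ] (ι → ℝ))) (P : Set (ι → ℝ)) (N : ℕ)
    (T : Geometry.SimplicialComplex ℝ (ι → ℝ)) : Prop where
  space_eq : T.space = P
  vertices_mem : ∀ s ∈ T.faces, ∀ v ∈ s, ∃ u : ι → ℤ, (N : ℝ) • v = toReal u
  invariant : ∀ g : G, ∀ s ∈ T.faces, ∃ t ∈ T.faces, (t : Set (ι → ℝ)) = ρ g '' (s : Set (ι → ℝ))

/-! ### The group and the action -/

/-- the group `(ℤ/4)^k`, written additively -/
abbrev X (k : ℕ) : Type := Fin k → ZMod 4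

/-- the subgroup of doubles, as a finite set -/
def Phi (k : ℕ) : Finset (X k) := Fintype.piFinset fun _ => ({0, 2} : Finset (ZMod 4))

/-- a transversal of the subgroup of doubles -/
def Rep (k : ℕ) : Finset (X k) := Fintype.piFinset fun _ => ({0, 1} : Finset (ZMod 4))

theorem card_Phi (k : ℕ) : (Phi k).card = 2 ^ k := by
  rw [Phi, Fintype.card_piFinset]
  have : ({0, 2} : Finset (ZMod 4)).card = 2 := by decide
  simp [this]

/-- the part of `a` in the doubles -/
def hh (a : ZMod 4) : ZMod 4 := if a = 0 ∨ a = 1 then 0 else 2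

theorem hh_iff : ∀ a p : ZMod 4, (p ∈ ({0, 2} : Finset (ZMod 4)) ∧
    a - p ∈ ({0, 1} : Finset (ZMod 4))) ↔ p = hh a := by decide

theorem card_rep (k : ℕ) (x : X k) : ((Phi k).filter (fun φ => x - φ ∈ Rep k)).card = 1 := by
  rw [Finset.card_eq_one]
  refine ⟨fun i => hh (x i), ?_⟩
  ext φ
  rw [Finset.mem_filter, Phi, Rep, Fintype.mem_piFinset, Fintype.mem_piFinset,
    Finset.mem_singleton]
  constructor
  · rintro ⟨h1, h2⟩
    funext i
    exact (hh_iff (x i) (φ i)).1 ⟨h1 i, h2 i⟩
  · rintro rfl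
    exact ⟨fun i => ((hh_iff (x i) _).2 rfl).1, fun i => ((hh_iff (x i) _).2 rfl).2⟩

theorem double_iff : ∀ p : ZMod 4, p ∈ ({0, 2} : Finset (ZMod 4)) → ∃ q : ZMod 4, p = q + q := by
  decide

theorem four_zero : ∀ q : ZMod 4, q + q + (q + q) = 0 := by decide

theorem Phi_double {k : ℕ} {φ : X k} (h : φ ∈ Phi k) : ∃ g : X k, φ = g + g := by
  rw [Phi, Fintype.mem_piFinset] at h
  choose g hg using fun i => double_iff (φ i) (h i)
  exact ⟨g, funext hg⟩

theorem four_zero' {k : ℕ} (g : X k) : g + g + (g + g) = 0 := funext fun i => four_zero (g i)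

/-- translation of functions -/
def sh {k : ℕ} (g : X k) (f : X k → ℝ) : X k → ℝ := fun x => f (x - g)

theorem sh_sh {k : ℕ} (g h : X k) (f : X k → ℝ) : sh g (sh h f) = sh (g + h) f := by
  funext x
  simp only [sh]
  congr 1
  abel

theorem sh_zero {k : ℕ} (f : X k → ℝ) : sh 0 f = f := by
  funext x
  simp [sh]

/-- the action by translation -/
noncomputable def rho (k : ℕ) : Multiplicative (X k) →* ((X k → ℝ) ≃ᵃ[ℝ] (X k → ℝ)) where
  toFun g := (LinearEquiv.funCongrLeft ℝ ℝ (Equiv.subRight (Multiplicative.toAdd g))).toAffineEquiv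
  map_one' := by
    ext f x
    simp
  map_mul' g h := by
    ext f x
    simp only [toAdd_mul, LinearEquiv.coe_toAffineEquiv, AffineEquiv.mul_def,
      AffineEquiv.trans_apply, LinearEquiv.funCongrLeft_apply, LinearMap.funLeft_apply,
      Equiv.subRight_apply]
    congr 1
    abel

theorem rho_apply {k : ℕ} (g : Multiplicative (X k)) (f : X k → ℝ) :
    rho k g f = sh (Multiplicative.toAdd g) f := rfl

/-- the vertices: zero-one functions with at most one `1` in each coset of the doubles -/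
def SS (k : ℕ) : Finset (X k → ℤ) :=
  (Fintype.piFinset fun _ => ({0, 1} : Finset ℤ)).filter
    (fun u => ∀ x, ∑ φ ∈ Phi k, u (x - φ) ≤ 1)

/-- the polytope -/
def PP (k : ℕ) : Set (X k → ℝ) := convexHull ℝ (toReal '' (SS k : Set (X k → ℤ)))

theorem mem_SS {k : ℕ} {u : X k → ℤ} :
    u ∈ SS k ↔ (∀ x, u x = 0 ∨ u x = 1) ∧ ∀ x, ∑ φ ∈ Phi k, u (x - φ) ≤ 1 := by
  simp [SS, Fintype.mem_piFinset]

/-- coset sums -/
def sg {k : ℕ} (x : X k) (v : X k → ℝ) : ℝ := ∑ φ ∈ Phi k, v (x - φ)

theorem sg_le_of_mem {k : ℕ} {v : X k → ℝ} (hv : v ∈ PP k) (x : X k) : sg x v ≤ 1 := by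
  have hconv : Convex ℝ {v : X k → ℝ | sg x v ≤ 1} := by
    intro a ha b hb s t hs ht hst
    simp only [Set.mem_ofPred_eq, sg] at *
    have e : ∑ φ ∈ Phi k, (s • a + t • b) (x - φ) =
        s * ∑ φ ∈ Phi k, a (x - φ) + t * ∑ φ ∈ Phi k, b (x - φ) := by
      rw [Finset.mul_sum, Finset.mul_sum, ← Finset.sum_add_distrib]
      rfl
    rw [e]
    have e1 := mul_le_mul_of_nonneg_left ha hs
    have e2 := mul_le_mul_of_nonneg_left hb ht
    linarith
  have hsub : toReal '' (SS k : Set (X k → ℤ)) ⊆ {v : X k → ℝ | sg x v ≤ 1} := by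
    rintro _ ⟨u, hu, rfl⟩
    have := (mem_SS.1 (Finset.mem_coe.1 hu)).2 x
    simp only [Set.mem_ofPred_eq, sg, toReal]
    exact_mod_cast this
  exact convexHull_min hsub hconv hv

/-- the invariant point -/
noncomputable def cc (k : ℕ) : X k → ℝ := fun _ => 1 / 2 ^ k

/-- the indicator of a translate of the transversal -/
def ind {k : ℕ} (φ : X k) : X k → ℤ := fun x => if x - φ ∈ Rep k then 1 else 0

theorem ind_mem {k : ℕ} (φ : X k) : ind φ ∈ SS k := by
  rw [mem_SS]
  refine ⟨fun x => ?_, fun x => ?_⟩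
  · simp only [ind]
    split_ifs
    · right; rfl
    · left; rfl
  · simp only [ind]
    rw [Finset.sum_ite, Finset.sum_const_zero, add_zero, Finset.sum_const]
    have h := card_rep k (x - φ)
    have h2 : (Phi k).filter (fun ψ => x - ψ - φ ∈ Rep k) =
        (Phi k).filter (fun ψ => x - φ - ψ ∈ Rep k) := by
      apply Finset.filter_congr
      intro ψ _
      rw [sub_right_comm]
    rw [h2, h]
    simp

theorem cc_mem (k : ℕ) : cc k ∈ PP k := by
  have h : cc k = ∑ φ ∈ Phi k, (1 / 2 ^ k : ℝ) • toReal (ind φ) := by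
    funext x
    rw [Finset.sum_apply]
    simp only [Pi.smul_apply, toReal, ind, smul_eq_mul, cc]
    rw [← Finset.mul_sum]
    have : ∑ φ ∈ Phi k, (((if x - φ ∈ Rep k then 1 else 0 : ℤ)) : ℝ) = 1 := by
      rw [← Int.cast_sum, Finset.sum_ite, Finset.sum_const_zero, add_zero, Finset.sum_const,
        card_rep k x]
      simp
    rw [this, mul_one]
  rw [h]
  apply (convex_convexHull ℝ _).sum_mem
  · intro i _; positivity
  · rw [Finset.sum_const, card_Phi, nsmul_eq_mul]
    push_cast
    field_simp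
  · intro φ _
    exact subset_convexHull ℝ _ ⟨ind φ, ind_mem φ, rfl⟩

theorem sh_mem_SS {k : ℕ} (g : X k) {u : X k → ℤ} (hu : u ∈ SS k) :
    (fun x => u (x - g)) ∈ SS k := by
  rw [mem_SS] at hu ⊢
  refine ⟨fun x => hu.1 _, fun x => ?_⟩
  have := hu.2 (x - g)
  have e : ∑ φ ∈ Phi k, u (x - φ - g) = ∑ φ ∈ Phi k, u (x - g - φ) := by
    apply Finset.sum_congr rfl
    intro φ _
    rw [sub_right_comm]
  rw [e]
  exact this

theorem image_sub {k : ℕ} (g : Multiplicative (X k)) : rho k g '' PP k ⊆ PP k := by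
  rw [PP]
  have : rho k g '' convexHull ℝ (toReal '' (SS k : Set (X k → ℤ))) =
      convexHull ℝ (rho k g '' (toReal '' (SS k : Set (X k → ℤ)))) := by
    exact AffineMap.image_convexHull (rho k g).toAffineMap _
  rw [this]
  apply convexHull_mono
  rintro _ ⟨_, ⟨u, hu, rfl⟩, rfl⟩
  exact ⟨_, sh_mem_SS (Multiplicative.toAdd g) hu, rfl⟩

theorem image_eq {k : ℕ} (g : Multiplicative (X k)) : rho k g '' PP k = PP k := by
  apply Set.Subset.antisymm (image_sub g)
  intro v hv
  refine ⟨rho k g⁻¹ v, image_sub g⁻¹ ⟨v, hv, rfl⟩, ?_⟩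
  rw [rho_apply, rho_apply, sh_sh, toAdd_inv, add_neg_cancel, sh_zero]

theorem full (k : ℕ) : affineSpan ℝ (PP k) = ⊤ := by
  have h0 : (0 : X k → ℤ) ∈ SS k := by
    rw [mem_SS]; simp
  have hs : ∀ x : X k, (Pi.single x 1 : X k → ℤ) ∈ SS k := by
    intro x
    rw [mem_SS]
    refine ⟨fun y => ?_, fun y => ?_⟩
    · by_cases h : y = x
      · subst h; simp
      · simp [h]
    · have : ∀ φ ∈ Phi k, φ ≠ y - x → (Pi.single x 1 : X k → ℤ) (y - φ) = 0 := by
        intro φ _ hφ
        rw [Pi.single_apply, if_neg]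
        intro h
        apply hφ
        rw [← h]; abel
      by_cases hm : y - x ∈ Phi k
      · rw [Finset.sum_eq_single_of_mem _ hm this]
        simp
      · rw [Finset.sum_eq_zero]
        · norm_num
        · intro φ hφ
          apply this φ hφ
          rintro rfl
          exact hm hφ
  have hmem0 : (0 : X k → ℝ) ∈ PP k := by
    apply subset_convexHull ℝ _
    exact ⟨0, h0, by funext k; simp [toReal]⟩
  have hmem : ∀ x : X k, (Pi.single x 1 : X k → ℝ) ∈ PP k := by
    intro x
    apply subset_convexHull ℝ _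
    refine ⟨Pi.single x 1, hs x, ?_⟩
    funext y
    by_cases hk : y = x
    · subst hk; simp [toReal]
    · simp [toReal, hk]
  have hins : PP k = insert 0 (PP k) := (Set.insert_eq_of_mem hmem0).symm
  rw [hins]
  apply SetLike.coe_injective
  rw [affineSpan_insert_zero]
  have : Submodule.span ℝ (PP k) = ⊤ := by
    rw [eq_top_iff]
    intro x _
    rw [pi_eq_sum_univ' x]
    apply Submodule.sum_mem
    intro i _
    apply Submodule.smul_mem
    apply Submodule.subset_span
    convert hmem i using 1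
  rw [this]
  simp

theorem sum_sh {k : ℕ} (v : X k → ℝ) (x : X k) :
    (∑ φ ∈ Phi k, sh φ v) x = sg x v := by
  rw [Finset.sum_apply]; rfl

/-- the main argument -/
theorem main {k N : ℕ} {T : Geometry.SimplicialComplex ℝ (X k → ℝ)}
    (hT : IsInvariantTriangulation (rho k) (PP k) N T) : 2 ^ k ∣ N := by
  classical
  have hc : cc k ∈ T.space := by rw [hT.space_eq]; exact cc_mem k
  rw [Geometry.SimplicialComplex.mem_space_iff] at hc
  obtain ⟨s0, hs0, hcs0⟩ := hc
  obtain ⟨s, ⟨hs, hcs⟩, hmin⟩ := WellFounded.has_min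
    (measure (Finset.card : Finset (X k → ℝ) → ℕ)).wf
    {s | s ∈ T.faces ∧ cc k ∈ convexHull ℝ (s : Set (X k → ℝ))} ⟨s0, hs0, hcs0⟩
  -- subsets of `s` whose hull contains the point are everything
  have hsub : ∀ t ⊆ s, cc k ∈ convexHull ℝ (t : Set (X k → ℝ)) → t = s := by
    intro t ht hct
    have hne : t.Nonempty := by
      rw [Finset.nonempty_iff_ne_empty]
      rintro rfl
      simp at hct
    have hface : t ∈ T.faces := T.down_closed hs ht hne
    have := hmin t ⟨hface, hct⟩
    exact Finset.eq_of_subset_of_card_le ht (not_lt.1 this)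
  have hall : ∀ t ∈ T.faces, cc k ∈ convexHull ℝ (t : Set (X k → ℝ)) → s ⊆ t := by
    intro t ht hct
    have h1 := T.inter_subset_convexHull hs ht ⟨hcs, hct⟩
    rw [← Finset.coe_inter] at h1
    have h2 := hsub (s ∩ t) Finset.inter_subset_left h1
    rw [← h2]
    exact Finset.inter_subset_right
  have hcfix : ∀ g : X k, sh g (cc k) = cc k := fun g => rfl
  -- `s` is invariant
  have hinv : ∀ g : X k, ∀ v ∈ s, sh g v ∈ s := by
    intro g v hv
    obtain ⟨t, ht, hteq⟩ := hT.invariant (Multiplicative.ofAdd (-g)) s hs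
    have hct : cc k ∈ convexHull ℝ (t : Set (X k → ℝ)) := by
      rw [hteq]
      have : rho k (Multiplicative.ofAdd (-g)) '' convexHull ℝ (s : Set (X k → ℝ)) =
          convexHull ℝ (rho k (Multiplicative.ofAdd (-g)) '' (s : Set (X k → ℝ))) :=
        AffineMap.image_convexHull (rho k (Multiplicative.ofAdd (-g))).toAffineMap _
      rw [← this]
      exact ⟨cc k, hcs, hcfix (-g)⟩
    have hst := hall t ht hct
    have hvt : v ∈ (t : Set (X k → ℝ)) := hst hv
    rw [hteq] at hvt
    obtain ⟨v', hv', rfl⟩ := hvt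
    rw [rho_apply, sh_sh]
    have : g + Multiplicative.toAdd (Multiplicative.ofAdd (-g)) = 0 := by simp
    rw [this, sh_zero]
    exact hv'
  -- all vertices of `s` lie in the invariant face
  have hone : ∀ v ∈ s, ∀ x, sg x v = 1 := by
    obtain ⟨w, hw0, hw1, hw2⟩ := Finset.mem_convexHull'.1 hcs
    have hpos : ∀ v ∈ s, 0 < w v := by
      have : s.filter (fun v => w v ≠ 0) = s := by
        apply hsub _ (Finset.filter_subset _ _)
        apply Finset.mem_convexHull'.2
        refine ⟨w, fun y hy => hw0 y (Finset.mem_filter.1 hy).1, ?_, ?_⟩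
        · rw [Finset.sum_filter_ne_zero]
          exact hw1
        · rw [← hw2]
          apply Finset.sum_subset (Finset.filter_subset _ _)
          intro v hv hv'
          have : w v = 0 := by
            by_contra h
            exact hv' (Finset.mem_filter.2 ⟨hv, h⟩)
          rw [this, zero_smul]
      intro v hv
      rw [← this] at hv
      obtain ⟨h1, h2⟩ := Finset.mem_filter.1 hv
      exact lt_of_le_of_ne (hw0 v h1) (Ne.symm h2)
    intro v hv x
    have hle : ∀ u ∈ s, sg x u ≤ 1 := by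
      intro u hu
      apply sg_le_of_mem
      rw [← hT.space_eq]
      exact Geometry.SimplicialComplex.convexHull_subset_space hs (subset_convexHull ℝ _ hu)
    have hsum : ∑ u ∈ s, w u * (1 - sg x u) = 0 := by
      have e1 : sg x (cc k) = 1 := by
        simp only [sg, cc]
        rw [Finset.sum_const, card_Phi, nsmul_eq_mul]
        push_cast
        field_simp
      have e2 : sg x (cc k) = ∑ u ∈ s, w u * sg x u := by
        conv_lhs => rw [← hw2]
        simp only [sg, Finset.sum_apply, Pi.smul_apply, smul_eq_mul]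
        rw [Finset.sum_comm]
        apply Finset.sum_congr rfl
        intro u _
        rw [Finset.mul_sum]
      have e3 : ∑ u ∈ s, w u * (1 - sg x u) = ∑ u ∈ s, w u - ∑ u ∈ s, w u * sg x u := by
        rw [← Finset.sum_sub_distrib]
        apply Finset.sum_congr rfl
        intro u _
        ring
      rw [e3, ← e2, e1, hw1, sub_self]
    have hz := (Finset.sum_eq_zero_iff_of_nonneg (fun u hu =>
      mul_nonneg (hw0 u hu) (sub_nonneg.2 (hle u hu)))).1 hsum v hv
    have := (mul_eq_zero.1 hz).resolve_left (hpos v hv).ne'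
    linarith
  -- the doubles act transitively on `s`
  have hcsum : ∀ v ∈ s, ∑ φ ∈ Phi k, (1 / 2 ^ k : ℝ) • sh φ v = cc k := by
    intro v hv
    rw [← Finset.smul_sum]
    funext x
    rw [Pi.smul_apply, sum_sh, hone v hv x]
    simp [cc]
  have htrans : ∀ v ∈ s, ∀ u ∈ s, ∃ φ ∈ Phi k, sh φ v = u := by
    intro v hv u hu
    have : (Phi k).image (fun φ => sh φ v) = s := by
      apply hsub
      · intro y hy
        obtain ⟨φ, -, rfl⟩ := Finset.mem_image.1 hy
        exact hinv φ v hv
      · rw [← hcsum v hv]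
        apply (convex_convexHull ℝ _).sum_mem
        · intro i _; positivity
        · rw [Finset.sum_const, card_Phi, nsmul_eq_mul]
          push_cast
          field_simp
        · intro φ hφ
          apply subset_convexHull ℝ _
          exact Finset.mem_coe.2 (Finset.mem_image.2 ⟨φ, hφ, rfl⟩)
    rw [← this] at hu
    obtain ⟨φ, h1, h2⟩ := Finset.mem_image.1 hu
    exact ⟨φ, h1, h2⟩
  -- hence `s` is the invariant point
  obtain ⟨v, hv⟩ : s.Nonempty := T.nonempty_of_mem_faces hs
  have hdfix : ∀ φ ∈ Phi k, sh φ v = v := by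
    intro φ hφ
    obtain ⟨g, rfl⟩ := Phi_double hφ
    obtain ⟨ψ, hψ, hψv⟩ := htrans v hv (sh g v) (hinv g v hv)
    obtain ⟨h, rfl⟩ := Phi_double hψ
    calc sh (g + g) v = sh g (sh g v) := (sh_sh g g v).symm
      _ = sh g (sh (h + h) v) := by rw [hψv]
      _ = sh (h + h) (sh g v) := by rw [sh_sh, sh_sh, add_comm]
      _ = sh (h + h) (sh (h + h) v) := by rw [hψv]
      _ = v := by rw [sh_sh, four_zero', sh_zero]
  have hvc : v = cc k := by
    rw [← hcsum v hv]
    have : ∑ φ ∈ Phi k, (1 / 2 ^ k : ℝ) • sh φ v = ∑ φ ∈ Phi k, (1 / 2 ^ k : ℝ) • v :=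
      Finset.sum_congr rfl fun φ hφ => by rw [hdfix φ hφ]
    rw [this, Finset.sum_const, card_Phi, ← Nat.cast_smul_eq_nsmul ℝ, smul_smul]
    push_cast
    have h2 : (2 : ℝ) ^ k * (1 / 2 ^ k) = 1 := by field_simp
    rw [h2, one_smul]
  obtain ⟨u, hu⟩ := hT.vertices_mem s hs v hv
  have h0 := congrFun hu 0
  rw [hvc] at h0
  simp only [Pi.smul_apply, cc, toReal, smul_eq_mul] at h0
  have h3 : (N : ℝ) = 2 ^ k * (u 0 : ℝ) := by
    rw [← h0]; field_simp
  have h4 : (N : ℤ) = 2 ^ k * u 0 := by exact_mod_cast h3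
  have h5 : ((2 ^ k : ℕ) : ℤ) ∣ (N : ℤ) := by
    rw [h4]
    push_cast
    exact dvd_mul_right _ _
  exact_mod_cast h5

theorem exponent_eq {k : ℕ} (hk : 1 ≤ k) : Monoid.exponent (Multiplicative (X k)) = 4 := by
  have h4 : Monoid.exponent (Multiplicative (X k)) ∣ 4 := by
    apply Monoid.exponent_dvd_of_forall_pow_eq_one
    intro g
    have : (4 : ℕ) • (Multiplicative.toAdd g) = 0 := by
      funext i
      have := four_zero (Multiplicative.toAdd g i)
      rw [Pi.smul_apply, Pi.zero_apply, ← this]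
      simp only [nsmul_eq_mul]
      push_cast
      ring
    exact this
  have h2 : ¬ Monoid.exponent (Multiplicative (X k)) ∣ 2 := by
    intro h
    have h5 : (Multiplicative.ofAdd (fun _ => 1 : X k)) ^ 2 = 1 :=
      Monoid.exponent_dvd_iff_forall_pow_eq_one.1 h _
    have h6 : (2 : ℕ) • (fun _ => 1 : X k) = 0 := h5
    have h7 := congrFun h6 ⟨0, hk⟩
    simp only [Pi.smul_apply, Pi.zero_apply] at h7
    revert h7
    decide
  have hle := Nat.le_of_dvd (by norm_num) h4
  interval_cases (Monoid.exponent (Multiplicative (X k)))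
  · simp at h4
  · simp at h2
  · simp at h2
  · revert h4; decide
  · rfl

/-- For every `k ≥ 1` there are a finite (abelian) group `G` of exponent `4`, an action of `G` on
`ℤ^ι` by affine automorphisms and an invariant full-dimensional lattice polytope `P` such that
every invariant triangulation of `P` (regular or not) with vertices in `(1/N) ℤ^ι` has
`2 ^ k ∣ N`. In particular (`k = 3`) no invariant triangulation has its vertices in
`(1/4) ℤ^ι`. -/
theorem result :
    (∀ k : ℕ, 1 ≤ k → ∃ (G : Type) (_ : CommGroup G) (_ : Finite G) (ι : Type) (_ : Finite ι)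
      (ρ : G →* ((ι → ℝ) ≃ᵃ[ℝ] (ι → ℝ))) (P : Set (ι → ℝ)),
      Monoid.exponent G = 4 ∧ (∀ g, PreservesLattice (ρ g)) ∧ IsFullLatticePolytope P ∧
      (∀ g, ρ g '' P = P) ∧
      ∀ (N : ℕ) (T : Geometry.SimplicialComplex ℝ (ι → ℝ)),
        IsInvariantTriangulation ρ P N T → 2 ^ k ∣ N) ∧
    ¬ ∀ (G : Type) (_ : Group G) (_ : Finite G) (ι : Type) (_ : Finite ι)
      (ρ : G →* ((ι → ℝ) ≃ᵃ[ℝ] (ι → ℝ))) (P : Set (ι → ℝ)),
      (∀ g, PreservesLattice (ρ g)) → IsFullLatticePolytope P → (∀ g, ρ g '' P = P) →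
      ∃ T : Geometry.SimplicialComplex ℝ (ι → ℝ),
        IsInvariantTriangulation ρ P (Monoid.exponent G) T := by
  have hmain : ∀ k : ℕ, (∀ g, PreservesLattice (rho k g)) ∧ IsFullLatticePolytope (PP k) ∧
      (∀ g, rho k g '' PP k = PP k) := by
    intro k
    refine ⟨fun g u => ⟨fun x => u (x - Multiplicative.toAdd g), rfl⟩, ⟨⟨SS k, rfl⟩, full k⟩,
      image_eq⟩
  refine ⟨?_, ?_⟩
  · intro k hk
    exact ⟨Multiplicative (X k), inferInstance, inferInstance, X k, inferInstance, rho k, PP k,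
      exponent_eq hk, (hmain k).1, (hmain k).2.1, (hmain k).2.2, fun N T hT => main hT⟩
  · intro hall
    obtain ⟨T, hT⟩ := hall (Multiplicative (X 3)) inferInstance inferInstance (X 3)
      inferInstance (rho 3) (PP 3) (hmain 3).1 (hmain 3).2.1 (hmain 3).2.2
    have h1 := main hT
    rw [exponent_eq (by norm_num)] at h1
    revert h1
    decide

end Pool.Agent.Results.MP_ee8878_co.NoInvariantTriangulation
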